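import Mathlib
import Pool.Agent.Lib.helper12.GWB

set_option autoImplicit false

namespace Pool.Agent.Results.MP_087ef2_pr.Full
open Pool.Agent.Lib.helper12.GW

theorem result {X : Type} [Countable X] (μ : X → PMF (X →₀ ℕ))
    (_h : ∀ x y, Relation.ReflTransGen (fun a b => ∃ f, μ a f ≠ 0 ∧ f b ≠ 0) x y)
    (hS : (S μ).Finite) : S μ = Set.range (q μ) := by
  refine Set.Subset.antisymm (fun s hs => ?_) (Set.range_subset_iff.2 q_fix)
  rcases dich' hs with e | e
  · exact ⟨_, e.symm⟩
  · exact absurd (e ▸ Cardinal.le_aleph0_iff_set_countable.2 hS.countable)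
      Cardinal.aleph0_lt_continuum.not_ge

end Pool.Agent.Results.MP_087ef2_pr.Full
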